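import Pool.Agent.Q263.IC.Def
import Pool.Agent.Q192.FT.Psi

/-!
# The cut-off translation action along the torus coordinates of a tube of class `C^r`

Author: helper26 (after `Pool/Agent/Q192/FT/Psi.lean`).
-/

set_option autoImplicit false

open scoped Manifold ContDiff Topology NNReal
open Filter Set Metric

universe u

namespace Pool.Agent.Q26.IC3

open Pool.Agent.H718R2.G Pool.Agent.H728R2.OS Pool.Agent.W564.SC Pool.Agent.Q192.FT

variable {n d : ℕ}

/-- the translation by `b t`, `b` the cut-off -/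
noncomputable def XX (n d : ℕ) (κ : ℝ) (t : Fin d → ℝ) (v : V n) : V n :=
  v + bmp n (κ • qq n d v) • em n d t

theorem qq_XX (κ : ℝ) (t : Fin d → ℝ) (v : V n) : qq n d (XX n d κ t v) = qq n d v := by
  unfold XX
  rw [map_add, map_smul, qq_em, smul_zero, add_zero]

theorem XX_zero (κ : ℝ) (v : V n) : XX n d κ 0 v = v := by
  unfold XX
  rw [map_zero, smul_zero, add_zero]

theorem XX_add (κ : ℝ) (s t : Fin d → ℝ) (v : V n) :
    XX n d κ (s + t) v = XX n d κ s (XX n d κ t v) := by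
  have h := qq_XX κ t v
  show _ = XX n d κ t v + bmp n (κ • qq n d (XX n d κ t v)) • em n d s
  rw [h]
  unfold XX
  rw [map_add, smul_add]
  abel

theorem XX_per (κ : ℝ) (t : Fin d → ℝ) (v : V n) (k : Fin d → ℝ) :
    XX n d κ t (v + em n d k) = XX n d κ t v + em n d k := by
  unfold XX
  rw [map_add, qq_em, add_zero]
  abel

theorem XX_out {κ : ℝ} (t : Fin d → ℝ) {v : V n} (hκ : 0 < κ) (hv : 1 / κ ≤ ‖qq n d v‖) :
    XX n d κ t v = v := by
  unfold XX
  rw [bmp_out, zero_smul, add_zero]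
  rw [norm_smul, Real.norm_eq_abs, abs_of_pos hκ]
  rwa [div_le_iff₀' hκ] at hv

theorem XX_core (κ : ℝ) (t x : Fin d → ℝ) : XX n d κ t (emb n d x) = emb n d (x + t) := by
  unfold XX
  rw [← em_apply, qq_em, smul_zero, bmp_zero, one_smul, ← map_add, em_apply]

section man

variable {N : Type u} {E : V n → N}

theorem psi_E' (hinj : ∀ v w, E v = E w ↔ ∃ k : Fin d → ℝ, IsI k ∧ w = v + em n d k)
    {X : V n → V n} (hX : ∀ v (k : Fin d → ℝ), X (v + em n d k) = X v + em n d k) (v : V n) :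
    psi E X (E v) = E (X v) := by
  have h : ∃ w, E w = E v := ⟨v, rfl⟩
  unfold psi
  rw [dif_pos h]
  have hw := h.choose_spec
  generalize h.choose = w at hw
  obtain ⟨k, hk, rfl⟩ := (hinj _ _).1 hw
  rw [hX _ _]
  exact (hinj _ _).2 ⟨k, hk, rfl⟩

theorem psi_not {X : V n → V n} {y : N} (h : ¬ ∃ v, E v = y) : psi E X y = y := by
  unfold psi
  rw [dif_neg h]

variable [TopologicalSpace N] [ChartedSpace (V n) N]

theorem inj_of {r : ℕ∞} (hd : d ≤ n) (hE : Q263.IC.Tube n d r E) (v w : V n) :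
    E v = E w ↔ ∃ k : Fin d → ℝ, IsI k ∧ w = v + em n d k := by
  rw [hE.inj, ← pr_int_iff hd, ← qq_eq_iff]
  constructor
  · rintro ⟨h1, h2⟩
    refine ⟨_, h1, ?_⟩
    rw [map_sub]
    have e1 := em_pr_add hd v
    have e2 := em_pr_add hd w
    rw [h2] at e2
    rw [← e2]
    conv_rhs => rw [← e1]
    rw [map_add (pr n hd), map_add (em n d), pr_em, pr_qq, map_zero, map_add (pr n hd),
      map_add (em n d), pr_em, pr_qq, map_zero]
    abel
  · rintro ⟨k, hk, rfl⟩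
    rw [map_add, pr_em, add_sub_cancel_left, map_add, qq_em, add_zero]
    exact ⟨hk, rfl⟩

theorem tube_smooth {r : ℕ∞} [IsManifold (𝓡 n) r N] (hE : Q263.IC.Tube n d r E) :
    ContMDiff (𝓡 n) (𝓡 n) r E := by
  intro v
  obtain ⟨χ, hχ, hv, h⟩ := hE.chart v
  have h1 : ContMDiffAt (𝓡 n) (𝓡 n) r χ.symm v := contMDiffAt_symm_of_mem_maximalAtlas hχ hv
  refine h1.congr_of_eventuallyEq ?_
  filter_upwards [χ.open_target.mem_nhds hv] with w hw
  exact (h w hw).symm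

/-- a compact fundamental domain -/
def FD (n : ℕ) {d : ℕ} (hd : d ≤ n) (c : ℝ) : Set (V n) :=
  {v : V n | ‖qq n d v‖ ≤ c ∧ pr n hd v ∈ Icc (0 : Fin d → ℝ) 1}

omit [TopologicalSpace N] [ChartedSpace (V n) N] in
theorem FD_compact (hd : d ≤ n) (c : ℝ) : IsCompact (FD n hd c) := by
  have hcl : IsClosed (FD n hd c) :=
    (isClosed_le (qq n d).continuous.norm continuous_const).inter
      (isClosed_Icc.preimage (pr n hd).continuous)
  obtain ⟨R, hR⟩ := (isCompact_Icc (a := (0 : Fin d → ℝ)) (b := 1)).isBounded.exists_norm_le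
  refine Metric.isCompact_of_isClosed_isBounded hcl ?_
  refine (Metric.isBounded_closedBall (x := (0 : V n)) (r := ‖em n d‖ * R + c)).subset ?_
  rintro v ⟨h1, h2⟩
  rw [mem_closedBall, dist_zero_right, ← em_pr_add hd v]
  refine (norm_add_le _ _).trans (add_le_add ?_ h1)
  exact ((em n d).le_opNorm _).trans (mul_le_mul_of_nonneg_left (hR _ h2) (norm_nonneg _))

/-- every point can be moved to the fundamental domain -/
theorem exists_FD {r : ℕ∞} (hd : d ≤ n) (hE : Q263.IC.Tube n d r E) (v : V n) :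
    ∃ w, E w = E v ∧ qq n d w = qq n d v ∧ pr n hd w ∈ Icc (0 : Fin d → ℝ) 1 := by
  set k : Fin d → ℝ := fun i => -((⌊pr n hd v i⌋ : ℤ) : ℝ) with hk
  have hkI : IsI k := fun i => ⟨-⌊pr n hd v i⌋, by rw [hk]; push_cast; rfl⟩
  refine ⟨v + em n d k, ((inj_of hd hE _ _).2 ⟨k, hkI, rfl⟩).symm, ?_, ?_⟩
  · rw [map_add, qq_em, add_zero]
  · rw [map_add, pr_em]
    have h1 : ∀ i, (pr n hd v + k) i = Int.fract (pr n hd v i) := fun i => by
      rw [Pi.add_apply, hk]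
      exact (sub_eq_add_neg _ _).symm
    constructor
    · intro i
      rw [h1]
      exact Int.fract_nonneg _
    · intro i
      rw [h1]
      exact (Int.fract_lt_one _).le

theorem slab_eq {r : ℕ∞} (hd : d ≤ n) (hE : Q263.IC.Tube n d r E) (c : ℝ) :
    E '' {v | ‖qq n d v‖ ≤ c} = E '' FD n hd c := by
  apply subset_antisymm
  · rintro _ ⟨v, hv, rfl⟩
    obtain ⟨w, hw1, hw2, hw3⟩ := exists_FD hd hE v
    refine ⟨w, ⟨?_, hw3⟩, hw1⟩
    rw [hw2]
    exact hv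
  · rintro _ ⟨v, hv, rfl⟩
    exact ⟨v, hv.1, rfl⟩

theorem exists_kappa {r : ℕ∞} [IsManifold (𝓡 n) r N] (hd : d ≤ n) (hE : Q263.IC.Tube n d r E)
    {K : Set N} (hK : IsClosed K) (hKE : ∀ x, E (emb n d x) ∉ K) :
    ∃ κ : ℝ, 0 < κ ∧ ∀ v, ‖qq n d v‖ ≤ 1 / κ → E v ∉ K := by
  have hcont : Continuous E := (tube_smooth hE).continuous
  have hc : IsCompact (FD n hd 1 ∩ E ⁻¹' K) :=
    (FD_compact hd 1).inter_right (hK.preimage hcont)
  have hm : ∃ m : ℝ, 0 < m ∧ ∀ v ∈ FD n hd 1 ∩ E ⁻¹' K, m ≤ ‖qq n d v‖ := by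
    rcases (FD n hd 1 ∩ E ⁻¹' K).eq_empty_or_nonempty with h | h
    · exact ⟨1, one_pos, fun v hv => by rw [h] at hv; exact hv.elim⟩
    · obtain ⟨v0, hv0, hmin⟩ := hc.exists_isMinOn h (qq n d).continuous.norm.continuousOn
      refine ⟨‖qq n d v0‖, norm_pos_iff.2 ?_, fun v hv => hmin hv⟩
      intro h0
      obtain ⟨x, hx⟩ := (core_iff hd v0).1 h0
      exact hKE x (hx ▸ hv0.2)
  obtain ⟨m, hm0, hm⟩ := hm
  refine ⟨2 / m + 1, by positivity, fun v hv hvK => ?_⟩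
  obtain ⟨w, hw1, hw2, hw3⟩ := exists_FD hd hE v
  have h1 : 1 / (2 / m + 1) ≤ 1 := by
    rw [div_le_one (by positivity)]
    have : 0 < 2 / m := by positivity
    linarith
  have h2 : 1 / (2 / m + 1) < m := by
    rw [div_lt_iff₀ (by positivity)]
    have : m * (2 / m + 1) = 2 + m := by field_simp
    rw [this]
    linarith
  have h3 := hm w ⟨⟨by rw [hw2]; exact hv.trans h1, hw3⟩, by
    show E w ∈ K
    rw [hw1]
    exact hvK⟩
  rw [hw2] at h3
  linarith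

omit [ChartedSpace (V n) N] in
theorem smooth_aux {r : ℕ∞} [ChartedSpace (V n) N] (g : V n → ℝ) (hg : ContDiff ℝ r g)
    (e : (Fin d → ℝ) →L[ℝ] V n) (c : N → V n) {y : N}
    (hc : ContMDiffAt (𝓡 n) (𝓡 n) r c y) (t : Fin d → ℝ) :
    ContMDiffAt (𝓘(ℝ, Fin d → ℝ).prod (𝓡 n)) (𝓡 n) r
      (fun q : (Fin d → ℝ) × N => c q.2 + g (c q.2) • e q.1) (t, y) := by
  have h2 : ContMDiffAt (𝓘(ℝ, Fin d → ℝ).prod (𝓡 n)) (𝓡 n) r
      (fun q : (Fin d → ℝ) × N => c q.2) (t, y) :=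
    ContMDiffAt.comp (x := ((t, y) : (Fin d → ℝ) × N)) (g := c) (f := Prod.snd) (I' := 𝓡 n)
      hc contMDiffAt_snd
  have h3 : ContMDiffAt (𝓘(ℝ, Fin d → ℝ).prod (𝓡 n)) (𝓡 n) r
      (fun q : (Fin d → ℝ) × N => e q.1) (t, y) :=
    ContMDiffAt.comp (x := ((t, y) : (Fin d → ℝ) × N)) (g := e) (f := Prod.fst)
      (I' := 𝓘(ℝ, Fin d → ℝ)) e.contMDiff.contMDiffAt contMDiffAt_fst
  have h4 : ContMDiffAt (𝓘(ℝ, Fin d → ℝ).prod (𝓡 n)) 𝓘(ℝ, ℝ) r
      (fun q : (Fin d → ℝ) × N => g (c q.2)) (t, y) :=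
    ContMDiffAt.comp (x := ((t, y) : (Fin d → ℝ) × N)) (g := g) (f := fun q => c q.2)
      (I' := 𝓡 n) hg.contMDiff.contMDiffAt h2
  exact ContMDiffAt.add h2 (ContMDiffAt.smul h4 h3)

theorem smooth_XX {r : ℕ∞} [T2Space N] [IsManifold (𝓡 n) r N] (hd : d ≤ n)
    (hE : Q263.IC.Tube n d r E) {κ : ℝ} (hκ : 0 < κ) :
    ContMDiff (𝓘(ℝ, Fin d → ℝ).prod (𝓡 n)) (𝓡 n) r
      (fun q : (Fin d → ℝ) × N => psi E (XX n d κ q.1) q.2) := by
  have hinj := inj_of hd hE
  intro q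
  obtain ⟨t, y⟩ := q
  by_cases hy : y ∈ E '' {v | ‖qq n d v‖ ≤ 1 / κ}
  · obtain ⟨v, -, rfl⟩ := hy
    obtain ⟨χ, hχ, hv, h⟩ := hE.chart v
    have hsrc : E v ∈ χ.source := by
      rw [← h v hv]
      exact χ.map_target hv
    have hχv : χ (E v) = v := by
      rw [← h v hv, χ.right_inv hv]
    have h1 : ContMDiffAt (𝓡 n) (𝓡 n) r χ (E v) := contMDiffAt_of_mem_maximalAtlas hχ hsrc
    have h5 : ContDiff ℝ r fun v : V n => bmp n (κ • qq n d v) :=
      ((bmp n).contDiff (n := r)).comp ((qq n d).contDiff.const_smul κ)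
    have h6 : ContMDiffAt (𝓘(ℝ, Fin d → ℝ).prod (𝓡 n)) (𝓡 n) r
        (fun q : (Fin d → ℝ) × N => XX n d κ q.1 (χ q.2)) (t, E v) := by
      unfold XX
      exact smooth_aux (fun v : V n => bmp n (κ • qq n d v)) h5 (em n d) χ h1 t
    have h7 : ContMDiffAt (𝓘(ℝ, Fin d → ℝ).prod (𝓡 n)) (𝓡 n) r
        (fun q : (Fin d → ℝ) × N => E (XX n d κ q.1 (χ q.2))) (t, E v) :=
      ContMDiffAt.comp (x := ((t, E v) : (Fin d → ℝ) × N)) (g := E)
        (f := fun q => XX n d κ q.1 (χ q.2)) (I' := 𝓡 n)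
        ((tube_smooth hE) _) h6
    refine h7.congr_of_eventuallyEq ?_
    have hO : {q : (Fin d → ℝ) × N | q.2 ∈ χ.source} ∈ 𝓝 ((t, E v) : (Fin d → ℝ) × N) :=
      (χ.open_source.preimage continuous_snd).mem_nhds hsrc
    filter_upwards [hO] with z hz
    have e : z.2 = E (χ z.2) := by
      rw [← h _ (χ.map_source hz), χ.left_inv hz]
    conv_lhs => rw [e]
    rw [psi_E' hinj (fun v k => XX_per κ z.1 v k)]
  · have hcl : IsClosed (E '' {v | ‖qq n d v‖ ≤ 1 / κ}) := by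
      rw [slab_eq hd hE]
      exact ((FD_compact hd _).image (tube_smooth hE).continuous).isClosed
    have hO : {q : (Fin d → ℝ) × N | q.2 ∈ (E '' {v | ‖qq n d v‖ ≤ 1 / κ})ᶜ} ∈
        𝓝 ((t, y) : (Fin d → ℝ) × N) :=
      (hcl.isOpen_compl.preimage continuous_snd).mem_nhds hy
    have h8 : ContMDiffAt (𝓘(ℝ, Fin d → ℝ).prod (𝓡 n)) (𝓡 n) r
        (fun q : (Fin d → ℝ) × N => q.2) (t, y) := contMDiffAt_snd
    refine h8.congr_of_eventuallyEq ?_
    filter_upwards [hO] with z hz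
    by_cases hv : ∃ v, E v = z.2
    · obtain ⟨v, hv⟩ := hv
      rw [← hv, psi_E' hinj (fun v k => XX_per κ z.1 v k), XX_out _ hκ]
      by_contra hc
      exact hz ⟨v, (not_le.1 hc).le, hv⟩
    · exact psi_not hv

end man

/-- **Job IC-ACT.** -/
theorem act : Q263.IC.S_ACT.{u} := by
  intro n d N _ _ _ _ _ r hr hd E hE K hK hKE
  have hman : IsManifold (𝓡 n) r N := IsManifold.of_le (n := ∞) (by exact_mod_cast le_top)
  have hinj := inj_of hd hE
  obtain ⟨κ, hκ, hκK⟩ := exists_kappa hd hE hK hKE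
  have hper : ∀ (t : Fin d → ℝ) (v : V n) (k : Fin d → ℝ),
      XX n d κ t (v + em n d k) = XX n d κ t v + em n d k := fun t v k => XX_per κ t v k
  refine ⟨fun t y => psi E (XX n d κ t) y, ⟨?_, ?_, ?_⟩, ?_, ?_⟩
  · intro y
    by_cases h : ∃ v, E v = y
    · obtain ⟨v, rfl⟩ := h
      rw [psi_E' hinj (hper 0), XX_zero]
    · exact psi_not h
  · intro s t y
    by_cases h : ∃ v, E v = y
    · obtain ⟨v, rfl⟩ := h
      rw [psi_E' hinj (hper _), psi_E' hinj (hper _), psi_E' hinj (hper _), XX_add]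
    · rw [psi_not h, psi_not h, psi_not h]
  · exact smooth_XX hd hE hκ
  · intro t x
    simp only
    rw [psi_E' hinj (hper _), XX_core]
  · intro t y hy
    by_cases h : ∃ v, E v = y
    · obtain ⟨v, rfl⟩ := h
      simp only
      rw [psi_E' hinj (hper _), XX_out _ hκ]
      by_contra hc
      exact hκK v (not_le.1 hc).le hy
    · exact psi_not h

end Pool.Agent.Q26.IC3
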